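import Pool.Agent.Helper51.Hart.Defs2

/-! HT-21: calculus with the Cauchy Riemann equations on the closed domain. -/

set_option autoImplicit false

noncomputable section

open Set Metric Complex MeasureTheory

namespace Pool.Helper51.Hart

variable {ρ : ℂ × ℂ → ℝ}

/-- The Cauchy Riemann equations on the open set imply them on the closed set. -/
private theorem h20_close (hf : HFacts ρ) {g : ℂ × ℂ → ℂ}
    (hg : ContDiff ℝ ((⊤ : ℕ∞) : WithTop ℕ∞) g)
    (hh : ∀ p, ρ p < 0 → ∀ v : ℂ × ℂ, fderiv ℝ g p (I • v) = I * fderiv ℝ g p v) :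
    ∀ p, ρ p ≤ 0 → ∀ v : ℂ × ℂ, fderiv ℝ g p (I • v) = I * fderiv ℝ g p v := by
  have hc : Continuous (fderiv ℝ g) := hg.continuous_fderiv (by simp)
  intro p hp v
  have hcl : IsClosed {p : ℂ × ℂ | fderiv ℝ g p (I • v) = I * fderiv ℝ g p v} :=
    isClosed_eq (hc.clm_apply continuous_const) (continuous_const.mul (hc.clm_apply continuous_const))
  have hsub : closure {p | ρ p < 0} ⊆ {p : ℂ × ℂ | fderiv ℝ g p (I • v) = I * fderiv ℝ g p v} :=
    closure_minimal (fun q hq => hh q hq v) hcl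
  rw [hf.closure_eq] at hsub
  exact hsub hp

/-- HT-21 -/
theorem CR_of_hol (hf : HFacts ρ) (hρ : Continuous ρ) {g : ℂ × ℂ → ℂ}
    (hg : ContDiff ℝ ((⊤ : ℕ∞) : WithTop ℕ∞) g)
    (hh : DifferentiableOn ℂ g {p | ρ p < 0}) : CR ρ g := by
  refine ⟨hg, h20_close hf hg fun p hp v => ?_⟩
  have hopen : IsOpen {p | ρ p < 0} := isOpen_lt hρ continuous_const
  have hd : DifferentiableAt ℂ g p := hh.differentiableAt (hopen.mem_nhds hp)
  have h1 : fderiv ℝ g p = (fderiv ℂ g p).restrictScalars ℝ := hd.fderiv_restrictScalars ℝ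
  rw [h1]
  simp

private theorem h20_dir (hf : HFacts ρ) (hρ : Continuous ρ) {F : ℂ × ℂ → ℂ} (hF : CR ρ F)
    (u : ℂ × ℂ) : CR ρ (fun p => fderiv ℝ F p u) := by
  obtain ⟨hs, hcr⟩ := hF
  have hs' : ContDiff ℝ ((⊤ : ℕ∞) : WithTop ℕ∞) (fderiv ℝ F) :=
    hs.fderiv_right (by simp)
  have hs2 : ContDiff ℝ ((⊤ : ℕ∞) : WithTop ℕ∞) (fun p => fderiv ℝ F p u) :=
    hs'.clm_apply contDiff_const
  have hd : ∀ p, DifferentiableAt ℝ (fderiv ℝ F) p := fun p =>
    hs'.differentiable (by simp) p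
  have key : ∀ p v w, fderiv ℝ (fun p => fderiv ℝ F p w) p v = fderiv ℝ (fderiv ℝ F) p v w := by
    intro p v w
    have h1 : HasFDerivAt (fun p => fderiv ℝ F p w)
        ((ContinuousLinearMap.apply ℝ ℂ w).comp (fderiv ℝ (fderiv ℝ F) p)) p :=
      (ContinuousLinearMap.apply ℝ ℂ w).hasFDerivAt.comp p (hd p).hasFDerivAt
    rw [h1.fderiv]
    rfl
  have hsymm : ∀ p v w, fderiv ℝ (fderiv ℝ F) p v w = fderiv ℝ (fderiv ℝ F) p w v := by
    intro p v w
    have h1 : IsSymmSndFDerivAt ℝ F p := by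
      have h2 : ContDiffAt ℝ ((⊤ : ℕ∞) : WithTop ℕ∞) F p := hs.contDiffAt
      refine h2.isSymmSndFDerivAt ?_
      rw [minSmoothness_of_isRCLikeNormedField]
      have h3 : ((2 : ℕ∞) : WithTop ℕ∞) ≤ ((⊤ : ℕ∞) : WithTop ℕ∞) := WithTop.coe_le_coe.2 le_top
      exact h3
    exact h1.eq v w
  refine ⟨hs2, h20_close hf hs2 fun p hp v => ?_⟩
  have hopen : IsOpen {p | ρ p < 0} := isOpen_lt hρ continuous_const
  have hev : (fun q => fderiv ℝ F q (I • v)) =ᶠ[nhds p] fun q => I * fderiv ℝ F q v :=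
    Filter.eventually_of_mem (hopen.mem_nhds hp) fun q hq => hcr q (le_of_lt hq) v
  have h3 : fderiv ℝ (fderiv ℝ F) p u (I • v) = I * fderiv ℝ (fderiv ℝ F) p u v := by
    rw [← key p u (I • v), hev.fderiv_eq, ← key p u v]
    have h4 : DifferentiableAt ℝ (fun q => fderiv ℝ F q v) p :=
      (hd p).clm_apply (differentiableAt_const v)
    have h5 := fderiv_const_mul h4 I
    rw [h5]
    simp
  rw [key, key, hsymm p (I • v) u, h3, hsymm p u v]

theorem CR.dw (hf : HFacts ρ) (hρ : Continuous ρ) {F : ℂ × ℂ → ℂ} (hF : CR ρ F) :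
    CR ρ (Dw F) :=
  h20_dir hf hρ hF (0, 1)

theorem CR.dz (hf : HFacts ρ) (hρ : Continuous ρ) {F : ℂ × ℂ → ℂ} (hF : CR ρ F) :
    CR ρ (Dz F) :=
  h20_dir hf hρ hF (1, 0)

theorem CR.mulz {F : ℂ × ℂ → ℂ} (hF : CR ρ F) : CR ρ (fun p => p.1 * F p) := by
  obtain ⟨hs, hcr⟩ := hF
  refine ⟨contDiff_fst.mul hs, fun p hp v => ?_⟩
  have hd : DifferentiableAt ℝ F p := hs.differentiable (by simp) p
  have h1 : HasFDerivAt (fun p : ℂ × ℂ => p.1) (ContinuousLinearMap.fst ℝ ℂ ℂ) p :=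
    hasFDerivAt_fst
  have h2 : HasFDerivAt (fun p : ℂ × ℂ => p.1 * F p)
      (p.1 • fderiv ℝ F p + F p • ContinuousLinearMap.fst ℝ ℂ ℂ) p := h1.mul hd.hasFDerivAt
  rw [h2.fderiv]
  have h3 := hcr p hp v
  simp only [add_apply, smul_apply, h3,
    ContinuousLinearMap.coe_fst', Prod.smul_fst, smul_eq_mul]
  ring

theorem CR.smul {F : ℂ × ℂ → ℂ} (hF : CR ρ F) (c : ℂ) : CR ρ (fun p => c * F p) := by
  obtain ⟨hs, hcr⟩ := hF
  refine ⟨contDiff_const.mul hs, fun p hp v => ?_⟩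
  have hd : DifferentiableAt ℝ F p := hs.differentiable (by simp) p
  have h5 := fderiv_const_mul hd c
  rw [h5]
  have h3 := hcr p hp v
  simp only [smul_apply, h3, smul_eq_mul]
  ring

end Pool.Helper51.Hart
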