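import Pool.Agent.Helper51.Hart.Defs2

/-! HT-13: no critical winding. -/

set_option autoImplicit false

noncomputable section

open Set Metric Complex MeasureTheory

namespace Pool.Helper51.Hart

variable {σ : ℝ × ℂ → ℝ}

/-- A smooth function on the slice that stays `≤ 0` along a short ray starting at a zero cannot
have positive derivative in that direction. -/
private theorem h20_ray (hσ : Slice σ) {s : ℝ} {w₀ v : ℂ} {τ₀ : ℝ} (hτ : 0 < τ₀)
    (h0 : σ (s, w₀) = 0) (hneg : fderiv ℝ σ (s, w₀) (0, v) < 0)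
    (hle : ∀ t ∈ Icc (0 : ℝ) 1, σ (s, w₀ - ((t * τ₀ : ℝ) : ℂ) * v) ≤ 0) : False := by
  have hd : DifferentiableAt ℝ σ (s, w₀) := hσ.smooth.differentiable (by simp) (s, w₀)
  have h1 : HasDerivAt (fun t : ℝ => ((s, w₀ - ((t * τ₀ : ℝ) : ℂ) * v) : ℝ × ℂ))
      ((0 : ℝ), -((τ₀ : ℂ) * v)) 0 := by
    refine HasDerivAt.prodMk (hasDerivAt_const _ _) ?_
    have h2 : HasDerivAt (fun t : ℝ => ((t * τ₀ : ℝ) : ℂ)) ((τ₀ : ℝ) : ℂ) 0 := by
      have h3 : HasDerivAt (fun t : ℝ => t * τ₀) (1 * τ₀) 0 := (hasDerivAt_id 0).mul_const τ₀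
      have h4 := h3.ofReal_comp
      simpa using h4
    have h5 := (h2.mul_const v).const_sub w₀
    simpa using h5
  have hd' : HasFDerivAt σ (fderiv ℝ σ (s, w₀)) ((fun t : ℝ =>
      ((s, w₀ - ((t * τ₀ : ℝ) : ℂ) * v) : ℝ × ℂ)) 0) := by
    simpa using hd.hasFDerivAt
  have h6 := hd'.comp_hasDerivAt (0 : ℝ) h1
  have h7 : fderiv ℝ σ (s, w₀) ((0 : ℝ), -((τ₀ : ℂ) * v)) =
      -τ₀ * fderiv ℝ σ (s, w₀) (0, v) := by
    have : ((0 : ℝ), -((τ₀ : ℂ) * v)) = (-τ₀) • ((0 : ℝ), v) := by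
      ext <;> simp
    rw [this, map_smul, smul_eq_mul]
  rw [h7] at h6
  have hpos : 0 < -τ₀ * fderiv ℝ σ (s, w₀) (0, v) := by nlinarith
  have h8 := h6.tendsto_slope
  have h9 := h8.eventually (lt_mem_nhds hpos)
  have h10 : ∀ᶠ t in nhdsWithin (0 : ℝ) (Ioi 0), 0 < slope (σ ∘ fun t : ℝ =>
      ((s, w₀ - ((t * τ₀ : ℝ) : ℂ) * v) : ℝ × ℂ)) 0 t :=
    h9.filter_mono (nhdsWithin_mono _ (fun x hx => ne_of_gt hx))
  have h11 : ∀ᶠ t in nhdsWithin (0 : ℝ) (Ioi 0), t ∈ Ioc (0 : ℝ) 1 :=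
    Ioc_mem_nhdsGT zero_lt_one
  obtain ⟨t, ht, ht1⟩ := (h10.and h11).exists
  have h12 := hle t ⟨ht1.1.le, ht1.2⟩
  rw [slope_def_field] at ht
  have h13 : (σ ∘ fun t : ℝ => ((s, w₀ - ((t * τ₀ : ℝ) : ℂ) * v) : ℝ × ℂ)) 0 = 0 := by
    simpa using h0
  rw [h13, sub_zero, sub_zero] at ht
  have h14 : 0 < (σ ∘ fun t : ℝ => ((s, w₀ - ((t * τ₀ : ℝ) : ℂ) * v) : ℝ × ℂ)) t := by
    have := mul_pos ht ht1.1
    rwa [div_mul_cancel₀ _ ht1.1.ne'] at this
  exact absurd h12 (not_le.2 h14)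

/-- HT-13 -/
theorem no_critical (hσ : Slice σ) (hpo : PushOut σ) {w₀ v : ℂ} {r1 r2 : ℝ} (hr1 : 0 ≤ r1)
    (h12 : r1 < r2) (hk : ∀ s ∈ Icc r1 r2, σ (s, w₀) = 0)
    (hpos : ∀ s ∈ Ioo r1 r2, fderiv ℝ σ (s, w₀) (0, v) < 0)
    (h1 : fderiv ℝ σ (r1, w₀) (0, v) = 0) (h2 : fderiv ℝ σ (r2, w₀) (0, v) = 0)
    (hd2 : 0 < deriv (fun s : ℝ => fderiv ℝ σ (s, w₀) (0, v)) r2)
    (hd1 : 0 < r1 → deriv (fun s : ℝ => fderiv ℝ σ (s, w₀) (0, v)) r1 < 0) : False := by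
  obtain ⟨M2, hM2, τ2, hτ2, hp2⟩ := hpo w₀ v r2 (r2 - r1) 1 (by linarith) (Or.inl rfl)
    (fun s hs => hk _ ⟨by linarith [hs.2], by linarith [hs.1]⟩) h2 (by linarith)
  set sm : ℝ := (r1 + r2) / 2 with hsm
  have hsm1 : r1 < sm := by rw [hsm]; linarith
  have hsm2 : sm < r2 := by rw [hsm]; linarith
  rcases hr1.eq_or_lt with h0 | h0
  · -- the case `r1 = 0`
    set τ₀ : ℝ := τ2 / 2 with hτ₀
    have hτ0 : 0 < τ₀ := by positivity
    have hcont : Continuous fun t : ℝ => w₀ - ((t * τ₀ : ℝ) : ℂ) * v := by fun_prop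
    have key := hσ.kont0 (fun t => r2 + M2 * (t * τ₀)) (fun t => w₀ - ((t * τ₀ : ℝ) : ℂ) * v)
      (by fun_prop) hcont.continuousOn
      (fun t ht => by
        have : 0 ≤ M2 * (t * τ₀) := by have := ht.1; positivity
        show 0 ≤ r2 + M2 * (t * τ₀)
        linarith)
      (fun t ht => by
        show σ (r2 + M2 * (t * τ₀), w₀ - ((t * τ₀ : ℝ) : ℂ) * v) ≤ 0
        rcases ht.1.eq_or_lt with h | h
        · subst h
          have := hk r2 ⟨h12.le, le_rfl⟩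
          simp [this]
        · have h3 := hp2 (t * τ₀) (by positivity) (by nlinarith [ht.2])
          rw [one_mul] at h3
          exact h3.le)
      (fun s hs => by
        have h4 : s ∈ Icc r1 r2 := by
          refine ⟨?_, ?_⟩
          · rw [← h0]; exact hs.1
          · simpa using hs.2
        have := hk s h4
        show σ (s, w₀ - (((0 : ℝ) * τ₀ : ℝ) : ℂ) * v) ≤ 0
        simp [this])
    refine h20_ray hσ hτ0 (hk sm ⟨hsm1.le, hsm2.le⟩) (hpos sm ⟨hsm1, hsm2⟩) fun t ht => ?_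
    refine key t ht sm ⟨by linarith, ?_⟩
    have : 0 ≤ M2 * (t * τ₀) := by have := ht.1; positivity
    show sm ≤ r2 + M2 * (t * τ₀)
    linarith
  · -- the case `0 < r1`
    obtain ⟨M1, hM1, τ1, hτ1, hp1⟩ := hpo w₀ v r1 (r2 - r1) (-1) (by linarith) (Or.inr rfl)
      (fun s hs => hk _ ⟨by linarith [hs.1], by linarith [hs.2]⟩) h1
      (by have := hd1 h0; linarith)
    set τ₀ : ℝ := min (min (τ1 / 2) (τ2 / 2)) (r1 / M1) with hτ₀
    have hτ0 : 0 < τ₀ := by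
      rw [hτ₀]
      exact lt_min (lt_min (by positivity) (by positivity)) (by positivity)
    have hτa : τ₀ ≤ τ1 / 2 := (min_le_left _ _).trans (min_le_left _ _)
    have hτb : τ₀ ≤ τ2 / 2 := (min_le_left _ _).trans (min_le_right _ _)
    have hτc : M1 * τ₀ ≤ r1 := by
      have h3 : τ₀ ≤ r1 / M1 := min_le_right _ _
      rw [le_div_iff₀ hM1] at h3
      linarith
    have hcont : Continuous fun t : ℝ => w₀ - ((t * τ₀ : ℝ) : ℂ) * v := by fun_prop
    have hnn : ∀ t ∈ Icc (0 : ℝ) 1, ∀ M : ℝ, 0 < M → 0 ≤ M * (t * τ₀) := by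
      intro t ht M hM
      have := ht.1
      positivity
    have key := hσ.kont1 (fun t => r1 - M1 * (t * τ₀)) (fun t => r2 + M2 * (t * τ₀))
      (fun t => w₀ - ((t * τ₀ : ℝ) : ℂ) * v)
      (by fun_prop) (by fun_prop) hcont.continuousOn
      (fun t ht => by
        have h3 := hnn t ht M1 hM1
        have h4 := hnn t ht M2 hM2
        have h5 : M1 * (t * τ₀) ≤ M1 * τ₀ := by
          have : t * τ₀ ≤ τ₀ := by nlinarith [ht.2]
          exact mul_le_mul_of_nonneg_left this hM1.le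
        refine ⟨?_, ?_⟩
        · show 0 ≤ r1 - M1 * (t * τ₀)
          linarith
        · show r1 - M1 * (t * τ₀) ≤ r2 + M2 * (t * τ₀)
          linarith)
      (fun t ht => by
        show σ (r1 - M1 * (t * τ₀), w₀ - ((t * τ₀ : ℝ) : ℂ) * v) ≤ 0 ∧
          σ (r2 + M2 * (t * τ₀), w₀ - ((t * τ₀ : ℝ) : ℂ) * v) ≤ 0
        rcases ht.1.eq_or_lt with h | h
        · subst h
          have h3 := hk r1 ⟨le_rfl, h12.le⟩
          have h4 := hk r2 ⟨h12.le, le_rfl⟩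
          simp [h3, h4]
        · have h3 := hp2 (t * τ₀) (by positivity) (by nlinarith [ht.2])
          have h4 := hp1 (t * τ₀) (by positivity) (by nlinarith [ht.2])
          rw [one_mul] at h3
          have h5 : r1 + -1 * (M1 * (t * τ₀)) = r1 - M1 * (t * τ₀) := by ring
          rw [h5] at h4
          exact ⟨h4.le, h3.le⟩)
      (fun s hs => by
        have h4 : s ∈ Icc r1 r2 := by
          refine ⟨?_, ?_⟩
          · simpa using hs.1
          · simpa using hs.2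
        have := hk s h4
        show σ (s, w₀ - (((0 : ℝ) * τ₀ : ℝ) : ℂ) * v) ≤ 0
        simp [this])
    refine h20_ray hσ hτ0 (hk sm ⟨hsm1.le, hsm2.le⟩) (hpos sm ⟨hsm1, hsm2⟩) fun t ht => ?_
    refine key t ht sm ⟨?_, ?_⟩
    · have := hnn t ht M1 hM1
      show r1 - M1 * (t * τ₀) ≤ sm
      linarith
    · have := hnn t ht M2 hM2
      show sm ≤ r2 + M2 * (t * τ₀)
      linarith

end Pool.Helper51.Hart
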